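import Pool.Agent.Lib.MP_054fa1_nt.Count

namespace Pool.Agent.Results.MP_054fa1_nt.AlmostAll

open Pool.Agent.MP_054fa1_nt

/-- For a prime `p = 1 mod 4` the valuation of `a n` is `n / (p - 1)` up to a relative error `ε`
for all but `O(log ^ 2 N)` numbers `n ≤ N`, and it exceeds `n / (p - 1) + 8 log n + M` (or `a n = 0`) for at most
`6 (log N + N log N / M)` numbers `n ≤ N`. -/
theorem result (p : ℕ) (hp : p.Prime) (h4 : p % 4 = 1) :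
    (∀ ε : ℝ, 0 < ε → ∃ C : ℝ, ∀ N : ℕ, 2 ≤ N →
      (({n : ℕ | 1 ≤ n ∧ n ≤ N ∧ ε ≤ |((p : ℝ) - 1) * padicValInt p (a n) / n - 1|}.ncard : ℕ) : ℝ)
        ≤ C * Real.log N ^ 2) ∧
    (∀ N : ℕ, 2 ≤ N → ∀ M : ℝ, 0 < M →
      (({n : ℕ | 2 ≤ n ∧ n ≤ N ∧ (a n = 0 ∨
        (n : ℝ) / (p - 1) + 8 * Real.log n + M < padicValInt p (a n))}.ncard : ℕ) : ℝ)
        ≤ 6 * (Real.log N + N * Real.log N / M)) :=
  ⟨fun ε hε => count_eps hp h4 ε hε, fun N hN M hM => count_M hp h4 N hN M hM⟩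

end Pool.Agent.Results.MP_054fa1_nt.AlmostAll
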