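import Pool.Agent.Lib.MP_054fa1_nt.Count

namespace Pool.Agent.Results.MP_054fa1_nt.LowerBound

open Pool.Agent.MP_054fa1_nt

/-- For a prime `p = 1 mod 4` the valuation of `a n` is at least `n / (p - 1) - 6 log n` for all `n ≥ 2` with
`a n ≠ 0`. -/
theorem result (p : ℕ) (hp : p.Prime) (h4 : p % 4 = 1) (n : ℕ) (hn : 2 ≤ n) (ha : a n ≠ 0) :
    (n : ℝ) / (p - 1) - 6 * Real.log n ≤ padicValInt p (a n) := by
  have h1 := key_lower hp h4 n ha
  have h2 := (er_le hp (five_le hp h4) n hn).1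
  linarith

end Pool.Agent.Results.MP_054fa1_nt.LowerBound
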